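import Mathlib

set_option autoImplicit false

/-!
# Cyclic Steiner triple systems: difference families and counting of isomorphism classes
-/

namespace Pool.Agent.U348.CSTS

open Finset

/-- cyclic Steiner triple systems on `ZMod n` -/
def IsCSTS {n : ℕ} (B : Finset (Finset (ZMod n))) : Prop :=
  (∀ b ∈ B, b.card = 3) ∧
  (∀ x y : ZMod n, x ≠ y → ∃! b : Finset (ZMod n), b ∈ B ∧ x ∈ b ∧ y ∈ b) ∧
  (∀ b ∈ B, b.image (fun x => x + 1) ∈ B)

section core

variable {n : ℕ} [NeZero n]

def dl (p : ZMod n × ZMod n) (s : Fin 6) : ZMod n :=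
  ![p.1, p.2, p.1 + p.2, -p.1, -p.2, -(p.1 + p.2)] s

def q (e : Bool) (p : ZMod n × ZMod n) (j : Fin 3) : ZMod n :=
  if e then ![0, p.1, p.1 + p.2] j else ![0, p.2, p.1 + p.2] j

def role (e : Bool) (j l : Fin 3) : Fin 6 :=
  if e then ![![0, 0, 2], ![3, 0, 1], ![5, 4, 0]] j l
  else ![![0, 1, 2], ![4, 0, 0], ![5, 3, 0]] j l

omit [NeZero n] in
lemma q_sub (e : Bool) (p : ZMod n × ZMod n) (j l : Fin 3) (h : j ≠ l) :
    q e p l - q e p j = dl p (role e j l) := by
  cases e <;> fin_cases j <;> fin_cases l <;> simp [q, dl, role] at h ⊢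

lemma role_inj : ∀ (e : Bool) (j l j' l' : Fin 3), j ≠ l → j' ≠ l' →
    role e j l = role e j' l' → j = j' ∧ l = l' := by decide

lemma role_surj : ∀ (e : Bool) (s : Fin 6), ∃ j l : Fin 3, j ≠ l ∧ role e j l = s := by decide

def blk (f : Fin 3 → ZMod n) (t : ZMod n) : Finset (ZMod n) := univ.image (fun j => t + f j)

omit [NeZero n] in
lemma mem_blk (f : Fin 3 → ZMod n) (t x : ZMod n) : x ∈ blk f t ↔ ∃ j, t + f j = x := by
  simp [blk]

/-- The block system attached to a set `E ⊆ T` of choices. -/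
noncomputable def sys (T E : Finset (ZMod n × ZMod n)) (H : Finset (ZMod n)) :
    Finset (Finset (ZMod n)) :=
  by
    classical
    exact (T ×ˢ (univ : Finset (ZMod n))).image (fun w => blk (q (decide (w.1 ∈ E)) w.1) w.2) ∪
      (if H.card = 3 then univ.image (fun t : ZMod n => H.image (fun h => t + h)) else ∅)

lemma mem_sys (T E : Finset (ZMod n × ZMod n)) (H : Finset (ZMod n)) (b : Finset (ZMod n)) :
    b ∈ sys T E H ↔ (∃ p ∈ T, ∃ t, blk (q (decide (p ∈ E)) p) t = b) ∨
      (H.card = 3 ∧ ∃ t : ZMod n, H.image (fun h => t + h) = b) := by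
  classical
  unfold sys
  rw [mem_union, mem_image]
  apply or_congr
  · constructor
    · rintro ⟨⟨p, t⟩, h1, h2⟩
      rw [mem_product] at h1
      exact ⟨p, h1.1, t, by convert h2⟩
    · rintro ⟨p, hp, t, h⟩
      exact ⟨(p, t), by simp [hp], by convert h⟩
  · by_cases h3 : H.card = 3
    · simp [h3]
    · simp [h3]

variable {T : Finset (ZMod n × ZMod n)} {H : Finset (ZMod n)} {k : ℕ}

/-- covering hypotheses -/
structure Cov (n : ℕ) [NeZero n] (T : Finset (ZMod n × ZMod n)) (H : Finset (ZMod n)) (k : ℕ) :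
    Prop where
  card : T.card ≤ k
  ncard : n = 6 * k + H.card
  h0 : (0 : ZMod n) ∈ H
  hsub : ∀ x ∈ H, ∀ y ∈ H, x - y ∈ H
  h13 : H.card = 1 ∨ H.card = 3
  cov : ∀ d : ZMod n, d ∉ H → ∃ p ∈ T, ∃ s, dl p s = d

lemma Cov.image_eq (h : Cov n T H k) :
    (T ×ˢ (univ : Finset (Fin 6))).image (fun w => dl w.1 w.2) = Hᶜ ∧
    (T ×ˢ (univ : Finset (Fin 6))).card = Hᶜ.card ∧ T.card = k := by
  have hc : Hᶜ.card = 6 * k := by
    rw [card_compl, ZMod.card]; have := h.ncard; omega
  have h1 : Hᶜ ⊆ (T ×ˢ (univ : Finset (Fin 6))).image (fun w => dl w.1 w.2) := by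
    intro d hd
    rw [mem_compl] at hd
    obtain ⟨p, hp, s, hs⟩ := h.cov d hd
    rw [mem_image]
    exact ⟨(p, s), by simp [hp], hs⟩
  have h2 : (T ×ˢ (univ : Finset (Fin 6))).card = T.card * 6 := by
    rw [card_product]; simp
  have h3 := card_image_le (s := T ×ˢ (univ : Finset (Fin 6))) (f := fun w => dl w.1 w.2)
  have h4 := card_le_card h1
  have h5 := h.card
  have h6 : T.card = k := by omega
  refine ⟨?_, by omega, h6⟩
  symm
  apply eq_of_subset_of_card_le h1
  omega

lemma Cov.not_mem (h : Cov n T H k) {p : ZMod n × ZMod n} (hp : p ∈ T) (s : Fin 6) :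
    dl p s ∉ H := by
  have h1 : dl p s ∈ (T ×ˢ (univ : Finset (Fin 6))).image (fun w => dl w.1 w.2) := by
    rw [mem_image]; exact ⟨(p, s), by simp [hp], rfl⟩
  rw [h.image_eq.1, mem_compl] at h1
  exact h1

lemma Cov.inj (h : Cov n T H k) {p p' : ZMod n × ZMod n} (hp : p ∈ T) (hp' : p' ∈ T) {s s' : Fin 6}
    (he : dl p s = dl p' s') : p = p' ∧ s = s' := by
  have h1 : Set.InjOn (fun w : (ZMod n × ZMod n) × Fin 6 => dl w.1 w.2)
      (T ×ˢ (univ : Finset (Fin 6)) : Finset _) := by
    rw [← card_image_iff, h.image_eq.1, h.image_eq.2.1]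
  have h2 := @h1 (p, s) (by simp [hp]) (p', s') (by simp [hp']) he
  exact ⟨congrArg Prod.fst h2, congrArg Prod.snd h2⟩

lemma Cov.q_ne (h : Cov n T H k) {p : ZMod n × ZMod n} (hp : p ∈ T) (e : Bool) {j l : Fin 3}
    (hjl : j ≠ l) : q e p j ≠ q e p l := by
  intro he
  have h1 := q_sub e p j l hjl
  rw [he, sub_self] at h1
  exact h.not_mem hp (role e j l) (h1 ▸ h.h0)

lemma Cov.neg_mem (h : Cov n T H k) {x : ZMod n} (hx : x ∈ H) : -x ∈ H := by
  have := h.hsub 0 h.h0 x hx
  simpa using this

lemma Cov.add_mem (h : Cov n T H k) {x y : ZMod n} (hx : x ∈ H) (hy : y ∈ H) : x + y ∈ H := by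
  have := h.hsub x hx (-y) (h.neg_mem hy)
  simpa using this

lemma mem_short {t x : ZMod n} : x ∈ H.image (fun h => t + h) ↔ x - t ∈ H := by
  rw [mem_image]
  constructor
  · rintro ⟨a, ha, rfl⟩; simpa using ha
  · intro h; exact ⟨x - t, h, by ring⟩

theorem Cov.isCSTS (h : Cov n T H k) (E : Finset (ZMod n × ZMod n)) : IsCSTS (sys T E H) := by
  refine ⟨?_, ?_, ?_⟩
  · intro b hb
    rw [mem_sys] at hb
    rcases hb with ⟨p, hp, t, rfl⟩ | ⟨h3, t, rfl⟩
    · unfold blk
      rw [card_image_of_injective]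
      · simp
      · intro j l hjl
        by_contra hne
        have : q (decide (p ∈ E)) p j = q (decide (p ∈ E)) p l := add_left_cancel hjl
        exact h.q_ne hp _ hne this
    · rw [card_image_of_injective _ (add_right_injective t), h3]
  · intro x y hxy
    by_cases hH : y - x ∈ H
    · have h3 : H.card = 3 := by
        rcases h.h13 with h1 | h3
        · exfalso
          obtain ⟨z, hz⟩ := card_eq_one.1 h1
          have e1 : (0 : ZMod n) = z := by simpa [hz] using h.h0
          have e2 : y - x = z := by simpa [hz] using hH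
          rw [← e1] at e2
          exact hxy (sub_eq_zero.1 e2).symm
        · exact h3
      refine ⟨H.image (fun h => x + h), ⟨?_, ?_, ?_⟩, ?_⟩
      · rw [mem_sys]; right; exact ⟨h3, x, rfl⟩
      · rw [mem_short]; simpa using h.h0
      · rw [mem_short]; exact hH
      · rintro b ⟨hb, hx, hy⟩
        rw [mem_sys] at hb
        rcases hb with ⟨p, hp, t, rfl⟩ | ⟨-, t, rfl⟩
        · exfalso
          rw [mem_blk] at hx hy
          obtain ⟨j, rfl⟩ := hx
          obtain ⟨l, rfl⟩ := hy
          have hjl : j ≠ l := by rintro rfl; exact hxy rfl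
          have e1 : (t + q (decide (p ∈ E)) p l) - (t + q (decide (p ∈ E)) p j) =
              dl p (role (decide (p ∈ E)) j l) := by
            rw [← q_sub _ _ _ _ hjl]; ring
          rw [e1] at hH
          exact h.not_mem hp _ hH
        · rw [mem_short] at hx hy
          ext z
          rw [mem_short, mem_short]
          constructor
          · intro hz
            have := h.hsub _ hz _ hx
            have e : z - t - (x - t) = z - x := by ring
            rwa [e] at this
          · intro hz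
            have := h.add_mem hz hx
            have e : z - x + (x - t) = z - t := by ring
            rwa [e] at this
    · obtain ⟨p, hp, s, hs⟩ := h.cov _ hH
      obtain ⟨j, l, hjl, hr⟩ := role_surj (decide (p ∈ E)) s
      have e1 : q (decide (p ∈ E)) p l - q (decide (p ∈ E)) p j = y - x := by
        rw [q_sub _ _ _ _ hjl, hr, hs]
      refine ⟨blk (q (decide (p ∈ E)) p) (x - q (decide (p ∈ E)) p j), ⟨?_, ?_, ?_⟩, ?_⟩
      · rw [mem_sys]; left; exact ⟨p, hp, _, rfl⟩
      · rw [mem_blk]; exact ⟨j, by ring⟩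
      · rw [mem_blk]; refine ⟨l, ?_⟩
        have : x - q (decide (p ∈ E)) p j + q (decide (p ∈ E)) p l =
          x + (q (decide (p ∈ E)) p l - q (decide (p ∈ E)) p j) := by ring
        rw [this, e1]; ring
      · rintro b ⟨hb, hx, hy⟩
        rw [mem_sys] at hb
        rcases hb with ⟨p', hp', t, rfl⟩ | ⟨-, t, rfl⟩
        · rw [mem_blk] at hx hy
          obtain ⟨j', hj'⟩ := hx
          obtain ⟨l', hl'⟩ := hy
          have hjl' : j' ≠ l' := by
            rintro rfl; exact hxy (hj'.symm.trans hl')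
          have e2 : dl p' (role (decide (p' ∈ E)) j' l') = y - x := by
            rw [← q_sub _ _ _ _ hjl', ← hj', ← hl']; ring
          have e3 : dl p' (role (decide (p' ∈ E)) j' l') = dl p s := by rw [e2, hs]
          obtain ⟨rfl, e4⟩ := h.inj hp' hp e3
          rw [← hr] at e4
          obtain ⟨rfl, rfl⟩ := role_inj _ _ _ _ _ hjl' hjl e4
          congr 1
          rw [← hj']; ring
        · exfalso
          rw [mem_short] at hx hy
          apply hH
          have := h.hsub _ hy _ hx
          have e : y - t - (x - t) = y - x := by ring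
          rwa [e] at this
  · intro b hb
    rw [mem_sys] at hb ⊢
    rcases hb with ⟨p, hp, t, rfl⟩ | ⟨h3, t, rfl⟩
    · left
      refine ⟨p, hp, t + 1, ?_⟩
      unfold blk
      rw [image_image]
      apply image_congr
      intro j _
      simp only [Function.comp]
      ring
    · right
      refine ⟨h3, t + 1, ?_⟩
      rw [image_image]
      apply image_congr
      intro j _
      simp only [Function.comp]
      ring

/-- different choices give different systems -/
theorem Cov.sys_inj (h : Cov n T H k) {E F : Finset (ZMod n × ZMod n)} (hE : E ⊆ T) (hF : F ⊆ T)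
    (he : sys T E H = sys T F H) : E = F := by
  have key : ∀ E F : Finset (ZMod n × ZMod n), E ⊆ T → F ⊆ T → sys T E H = sys T F H →
      E ⊆ F := by
    intro E F hE _ he p hp
    by_contra hpF
    have hpT := hE hp
    have e1 : blk (q true p) 0 ∈ sys T E H := by
      rw [mem_sys]; left; exact ⟨p, hpT, 0, by simp [hp]⟩
    have e2 : blk (q false p) 0 ∈ sys T E H := by
      rw [he, mem_sys]; left; exact ⟨p, hpT, 0, by simp [hpF]⟩
    have hne : (0 : ZMod n) ≠ p.1 + p.2 := by
      have := h.q_ne hpT true (show (0 : Fin 3) ≠ 2 by decide)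
      simpa [q] using this
    have e3 : blk (q true p) 0 = blk (q false p) 0 := by
      apply ((h.isCSTS E).2.1 0 (p.1 + p.2) hne).unique
      · refine ⟨e1, ?_, ?_⟩
        · rw [mem_blk]; exact ⟨0, by simp [q]⟩
        · rw [mem_blk]; exact ⟨2, by simp [q]⟩
      · refine ⟨e2, ?_, ?_⟩
        · rw [mem_blk]; exact ⟨0, by simp [q]⟩
        · rw [mem_blk]; exact ⟨2, by simp [q]⟩
    have e4 : p.1 ∈ blk (q false p) 0 := by
      rw [← e3, mem_blk]; exact ⟨1, by simp [q]⟩
    rw [mem_blk] at e4
    obtain ⟨j, hj⟩ := e4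
    fin_cases j
    · have e5 : p.1 = 0 := by simpa [q] using hj.symm
      apply h.not_mem hpT 0
      have : dl p 0 = 0 := by simp [dl, e5]
      rw [this]; exact h.h0
    · have e5 : p.2 = p.1 := by simpa [q] using hj
      have e6 : dl p 0 = dl p 1 := by simp [dl, e5]
      have := (h.inj hpT hpT e6).2
      exact absurd this (by decide)
    · have e5 : p.2 = 0 := by simpa [q] using hj
      apply h.not_mem hpT 1
      have : dl p 1 = 0 := by simp [dl, e5]
      rw [this]; exact h.h0
  exact Subset.antisymm (key E F hE hF he) (key F E hF hE he.symm)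

end core

end Pool.Agent.U348.CSTS
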