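import Mathlib
import Pool.Agent.U348.CSTS

set_option autoImplicit false

/-!
# Counting isomorphism classes of cyclic Steiner triple systems

Every cyclic Steiner triple system on `ZMod n` is isomorphic to at most `n` cyclic Steiner triple
systems on `ZMod n`.
-/

namespace Pool.Agent.U348.CSTS

open Finset Equiv

variable {n : ℕ} [NeZero n]

/-- action of a permutation on systems -/
def act (σ : Perm (ZMod n)) (B : Finset (Finset (ZMod n))) : Finset (Finset (ZMod n)) :=
  B.image (fun b => b.map σ.toEmbedding)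

omit [NeZero n] in
lemma mem_act (σ : Perm (ZMod n)) (B : Finset (Finset (ZMod n))) (b : Finset (ZMod n)) :
    b ∈ act σ B ↔ b.map σ.symm.toEmbedding ∈ B := by
  unfold act
  rw [mem_image]
  constructor
  · rintro ⟨a, ha, rfl⟩
    rw [map_map]
    convert ha
    ext x
    simp
  · intro h
    refine ⟨_, h, ?_⟩
    rw [map_map]
    ext x
    simp

omit [NeZero n] in
lemma act_mul (σ τ : Perm (ZMod n)) (B : Finset (Finset (ZMod n))) :
    act (σ * τ) B = act σ (act τ B) := by
  unfold act
  rw [image_image]
  apply image_congr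
  intro b _
  simp only [Function.comp]
  rw [map_map]
  congr 1

omit [NeZero n] in
lemma act_one (B : Finset (Finset (ZMod n))) : act 1 B = B := by
  ext b
  rw [mem_act]
  have : b.map (1 : Perm (ZMod n)).symm.toEmbedding = b := by
    ext x; simp
  rw [this]

/-- translation by one -/
def tau (n : ℕ) : Perm (ZMod n) := Equiv.addRight 1

omit [NeZero n] in
lemma tau_act_sub {B : Finset (Finset (ZMod n))} (hB : IsCSTS B) : act (tau n) B = B := by
  have h1 : act (tau n) B ⊆ B := by
    intro b hb
    unfold act at hb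
    rw [mem_image] at hb
    obtain ⟨a, ha, rfl⟩ := hb
    have := hB.2.2 a ha
    convert this
    ext x
    simp [tau]
  apply eq_of_subset_of_card_le h1
  unfold act
  rw [card_image_of_injective]
  intro a b hab
  exact map_injective _ hab

/-- isomorphism -/
def Iso (B B' : Finset (Finset (ZMod n))) : Prop :=
  ∃ σ : Perm (ZMod n), ∀ b : Finset (ZMod n), b ∈ B ↔ b.map σ.toEmbedding ∈ B'

omit [NeZero n] in
lemma iso_iff {B B' : Finset (Finset (ZMod n))} : Iso B B' ↔ ∃ σ : Perm (ZMod n), act σ B = B' := by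
  constructor
  · rintro ⟨σ, h⟩
    refine ⟨σ, ?_⟩
    ext b
    rw [mem_act, h, map_map]
    have : b.map (σ.symm.toEmbedding.trans σ.toEmbedding) = b := by
      ext x; simp
    rw [this]
  · rintro ⟨σ, rfl⟩
    refine ⟨σ, fun b => ?_⟩
    rw [mem_act, map_map]
    have : b.map (σ.toEmbedding.trans σ.symm.toEmbedding) = b := by
      ext x; simp
    rw [this]

omit [NeZero n] in
lemma iso_refl (B : Finset (Finset (ZMod n))) : Iso B B := iso_iff.2 ⟨1, act_one B⟩

omit [NeZero n] in
lemma iso_symm {B B' : Finset (Finset (ZMod n))} (h : Iso B B') : Iso B' B := by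
  obtain ⟨σ, rfl⟩ := iso_iff.1 h
  refine iso_iff.2 ⟨σ⁻¹, ?_⟩
  rw [← act_mul, inv_mul_cancel, act_one]

omit [NeZero n] in
lemma iso_trans {B B' B'' : Finset (Finset (ZMod n))} (h : Iso B B') (h' : Iso B' B'') :
    Iso B B'' := by
  obtain ⟨σ, rfl⟩ := iso_iff.1 h
  obtain ⟨τ, rfl⟩ := iso_iff.1 h'
  exact iso_iff.2 ⟨τ * σ, act_mul τ σ B⟩

lemma comm_tau {θ : Perm (ZMod n)} (h : θ * tau n = tau n * θ) (x : ZMod n) :
    θ x = θ 0 + x := by
  have h1 : ∀ y : ZMod n, θ (y + 1) = θ y + 1 := by
    intro y
    have := congrArg (fun f : Perm (ZMod n) => f y) h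
    simpa [tau, Perm.mul_apply] using this
  have h2 : ∀ m : ℕ, θ (m : ZMod n) = θ 0 + m := by
    intro m
    induction m with
    | zero => simp
    | succ m ih =>
      push_cast
      rw [h1, ih]; ring
  obtain ⟨m, hm⟩ : ∃ m : ℕ, (m : ZMod n) = x := ⟨x.val, ZMod.natCast_zmod_val x⟩
  rw [← hm, h2]

/-- The isomorphism class of a cyclic Steiner triple system has at most `n` members. -/
theorem class_card (B : Finset (Finset (ZMod n))) (C : Finset (Finset (Finset (ZMod n))))
    (hC : ∀ B' ∈ C, IsCSTS B' ∧ Iso B B') : C.card ≤ n := by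
  classical
  set A : Finset (Perm (ZMod n)) := univ.filter (fun φ => act φ B = B) with hA
  set P : Finset (Perm (ZMod n)) := univ.filter (fun φ => IsCSTS (act φ B)) with hP
  have hApos : 0 < A.card := by
    apply card_pos.2
    exact ⟨1, by simp [hA, act_one]⟩
  -- first count
  have h1 : P.card ≤ n * A.card := by
    have hmaps : ∀ φ ∈ P, φ⁻¹ * tau n * φ ∈ A := by
      intro φ hφ
      rw [hP, mem_filter] at hφ
      rw [hA, mem_filter]
      refine ⟨mem_univ _, ?_⟩
      rw [act_mul, act_mul, tau_act_sub hφ.2, ← act_mul, inv_mul_cancel, act_one]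
    have := card_le_mul_card_image_of_maps_to hmaps n ?_
    · exact this
    · intro c _
      have hinj : Set.InjOn (fun φ : Perm (ZMod n) => φ 0)
          (P.filter (fun φ => φ⁻¹ * tau n * φ = c) : Finset _) := by
        intro φ hφ ψ hψ he
        simp only [coe_filter, Set.mem_ofPred_eq] at hφ hψ he
        have e1 : φ⁻¹ * tau n * φ = ψ⁻¹ * tau n * ψ := hφ.2.trans hψ.2.symm
        have e2 : (φ * ψ⁻¹) * tau n = tau n * (φ * ψ⁻¹) := by
          have : tau n * φ = φ * (ψ⁻¹ * tau n * ψ) := by
            rw [← e1]; group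
          calc (φ * ψ⁻¹) * tau n = φ * (ψ⁻¹ * tau n * ψ) * ψ⁻¹ := by group
            _ = tau n * φ * ψ⁻¹ := by rw [this]
            _ = _ := by group
        have e3 := comm_tau e2 (ψ 0)
        have e4 : (φ * ψ⁻¹) (ψ 0) = ψ 0 := by
          rw [Perm.mul_apply, Perm.inv_def, Equiv.symm_apply_apply]; exact he
        rw [e4] at e3
        have e5 : (φ * ψ⁻¹) 0 = 0 := by
          have : (φ * ψ⁻¹) 0 + ψ 0 = 0 + ψ 0 := by rw [← e3, zero_add]
          exact add_right_cancel this
        have e6 : φ * ψ⁻¹ = 1 := by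
          ext x
          have := comm_tau e2 x
          rw [e5, zero_add] at this
          rw [this]; rfl
        exact mul_inv_eq_one.1 e6
      calc _ = ((P.filter (fun φ => φ⁻¹ * tau n * φ = c)).image (fun φ => φ 0)).card :=
            (card_image_of_injOn hinj).symm
        _ ≤ (univ : Finset (ZMod n)).card := card_le_univ _
        _ = n := by rw [card_univ, ZMod.card]
  -- second count
  have h2 : A.card * C.card ≤ P.card := by
    have hdisj : ∀ B' ∈ C, A.card ≤ (P.filter (fun φ => act φ B = B')).card := by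
      intro B' hB'
      obtain ⟨hc, hi⟩ := hC B' hB'
      obtain ⟨φ, hφ⟩ := iso_iff.1 hi
      apply card_le_card_of_injOn (fun a => φ * a)
      · intro a ha
        simp only [hA, coe_filter, mem_univ, true_and, Set.mem_ofPred_eq] at ha
        simp only [coe_filter, Set.mem_ofPred_eq, hP, mem_filter, mem_univ, true_and]
        rw [act_mul, ha, hφ]
        exact ⟨hc, rfl⟩
      · intro a _ b _ hab
        exact mul_left_cancel hab
    calc A.card * C.card = ∑ B' ∈ C, A.card := by rw [sum_const, smul_eq_mul, mul_comm]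
      _ ≤ ∑ B' ∈ C, (P.filter (fun φ => act φ B = B')).card := sum_le_sum hdisj
      _ ≤ P.card := by
        rw [← card_biUnion]
        · apply card_le_card
          intro φ hφ
          rw [mem_biUnion] at hφ
          obtain ⟨_, _, h⟩ := hφ
          exact (mem_filter.1 h).1
        · intro x _ y _ hxy
          rw [Function.onFun, disjoint_left]
          intro φ h3 h4
          exact hxy ((mem_filter.1 h3).2.symm.trans (mem_filter.1 h4).2)
  have h3 : A.card * C.card ≤ A.card * n := by rw [mul_comm A.card n]; exact h2.trans h1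
  exact Nat.le_of_mul_le_mul_left h3 hApos

/-- many systems give many isomorphism classes -/
theorem many_classes (X : Finset (Finset (Finset (ZMod n)))) (hX : ∀ B ∈ X, IsCSTS B) (M : ℕ)
    (hM : n * M ≤ X.card) :
    ∃ B : Fin M → Finset (Finset (ZMod n)), (∀ i, IsCSTS (B i)) ∧ ∀ i j, i ≠ j → ¬ Iso (B i) (B j) := by
  classical
  let s : Setoid (Finset (Finset (ZMod n))) :=
    ⟨Iso, iso_refl, iso_symm, iso_trans⟩
  let Y : Finset (Quotient s) := X.image (fun B => Quotient.mk s B)
  have h1 : X.card ≤ n * Y.card := by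
    apply card_le_mul_card_image
    intro c hc
    rw [mem_image] at hc
    obtain ⟨B, hB, rfl⟩ := hc
    apply class_card B
    intro B' hB'
    rw [mem_filter] at hB'
    exact ⟨hX B' hB'.1, iso_symm (Quotient.exact hB'.2)⟩
  have h2 : M ≤ Y.card := by
    have hn : 0 < n := Nat.pos_of_ne_zero (NeZero.ne n)
    exact Nat.le_of_mul_le_mul_left (hM.trans h1) hn
  obtain ⟨Z, hZY, hZ⟩ := exists_subset_card_eq h2
  have e := (Z.equivFin.trans (finCongr hZ)).symm
  have h3 : ∀ i : Fin M, ∃ B, B ∈ X ∧ Quotient.mk s B = (e i : Quotient s) := by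
    intro i
    have := hZY (e i).2
    rw [mem_image] at this
    exact this
  choose B hB1 hB2 using h3
  refine ⟨B, fun i => hX _ (hB1 i), fun i j hij hiso => hij ?_⟩
  have h4 : Quotient.mk s (B i) = Quotient.mk s (B j) := Quotient.sound hiso
  rw [hB2, hB2] at h4
  exact e.injective (Subtype.ext h4)

/-- covering data give many classes -/
theorem Cov.many {T : Finset (ZMod n × ZMod n)} {H : Finset (ZMod n)} {k : ℕ} (h : Cov n T H k)
    (M : ℕ) (hM : n * M ≤ 2 ^ k) :
    ∃ B : Fin M → Finset (Finset (ZMod n)), (∀ i, IsCSTS (B i)) ∧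
      ∀ i j, i ≠ j → ¬ Iso (B i) (B j) := by
  classical
  apply many_classes (T.powerset.image (fun E => sys T E H))
  · intro B hB
    rw [mem_image] at hB
    obtain ⟨E, _, rfl⟩ := hB
    exact h.isCSTS E
  · rw [card_image_of_injOn, card_powerset, h.image_eq.2.2]
    · exact hM
    · intro E hE F hF he
      rw [coe_powerset, Set.mem_preimage, Set.mem_powerset_iff, coe_subset] at hE hF
      exact h.sys_inj hE hF he

end Pool.Agent.U348.CSTS
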