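import Mathlib
import Pool.Agent.U348.Count

set_option autoImplicit false

/-!
# Peltesohn's difference triples
-/

namespace Pool.Agent.U348.CSTS

open Finset

/-- the covering property for a finite set of pairs of natural numbers -/
def NCov (n m : ℕ) (S : Finset (ℕ × ℕ)) : Prop :=
  ∀ x : ℕ, 1 ≤ x → 2 * x < n → x ≠ m →
    ∃ p ∈ S, x = p.1 ∨ x = p.2 ∨ x = p.1 + p.2 ∨ x + (p.1 + p.2) = n

/-- casting pairs -/
def cst (n : ℕ) (p : ℕ × ℕ) : ZMod n × ZMod n := ((p.1 : ZMod n), (p.2 : ZMod n))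

lemma cov_point {n : ℕ} [NeZero n] (hn : n % 2 = 1) {m : ℕ} {S : Finset (ℕ × ℕ)}
    (h : NCov n m S) (d : ZMod n) (h0 : d ≠ 0) (hm1 : d ≠ (m : ZMod n)) (hm2 : d ≠ -(m : ZMod n)) :
    ∃ p ∈ S.image (cst n), ∃ s, dl p s = d := by
  have hd : ((d.val : ℕ) : ZMod n) = d := ZMod.natCast_zmod_val d
  have hlt : d.val < n := ZMod.val_lt d
  have hpos : 0 < d.val := by
    rcases Nat.eq_zero_or_pos d.val with h1 | h1
    · exact absurd ((ZMod.val_eq_zero d).1 h1) h0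
    · exact h1
  have hnn : ((n : ℕ) : ZMod n) = 0 := ZMod.natCast_self n
  by_cases h2 : 2 * d.val < n
  · have hne : d.val ≠ m := by
      rintro rfl; exact hm1 hd.symm
    obtain ⟨p, hp, hc⟩ := h d.val hpos h2 hne
    refine ⟨cst n p, mem_image_of_mem _ hp, ?_⟩
    rcases hc with hc | hc | hc | hc
    · exact ⟨0, by rw [← hd, hc]; simp [dl, cst]⟩
    · exact ⟨1, by rw [← hd, hc]; simp [dl, cst]⟩
    · exact ⟨2, by rw [← hd, hc]; simp [dl, cst]⟩
    · refine ⟨5, ?_⟩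
      have e : ((d.val + (p.1 + p.2) : ℕ) : ZMod n) = 0 := by rw [hc, hnn]
      push_cast at e
      rw [hd] at e
      have : dl (cst n p) 5 = -((p.1 : ZMod n) + (p.2 : ZMod n)) := by simp [dl, cst]
      rw [this]
      linear_combination -e
  · have hx : ((n - d.val : ℕ) : ZMod n) = -d := by
      rw [Nat.cast_sub hlt.le, hnn, hd, zero_sub]
    have hne : n - d.val ≠ m := by
      intro he
      apply hm2
      rw [← he, hx, neg_neg]
    obtain ⟨p, hp, hc⟩ := h (n - d.val) (by omega) (by omega) hne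
    refine ⟨cst n p, mem_image_of_mem _ hp, ?_⟩
    have hd' : d = -((n - d.val : ℕ) : ZMod n) := by rw [hx, neg_neg]
    rcases hc with hc | hc | hc | hc
    · exact ⟨3, by rw [hd', hc]; simp [dl, cst]⟩
    · exact ⟨4, by rw [hd', hc]; simp [dl, cst]⟩
    · exact ⟨5, by rw [hd', hc]; simp [dl, cst]⟩
    · refine ⟨2, ?_⟩
      have e : (((n - d.val) + (p.1 + p.2) : ℕ) : ZMod n) = 0 := by rw [hc, hnn]
      rw [Nat.cast_add, hx] at e
      push_cast at e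
      have : dl (cst n p) 2 = ((p.1 : ZMod n) + (p.2 : ZMod n)) := by simp [dl, cst]
      rw [this]
      linear_combination e

/-- the case `n = 6 k + 1` -/
theorem cov_one {n k : ℕ} [NeZero n] (hn : n = 6 * k + 1) {S : Finset (ℕ × ℕ)}
    (hS : S.card ≤ k) (h : NCov n 0 S) : Cov n (S.image (cst n)) {0} k := by
  refine ⟨card_image_le.trans hS, by simp [hn], by simp, by simp, by simp, ?_⟩
  intro d hd
  rw [mem_singleton] at hd
  exact cov_point (by omega) h d hd (by simpa using hd) (by simpa using hd)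

/-- the case `n = 6 k + 3` -/
theorem cov_three {n k : ℕ} [NeZero n] (hn : n = 6 * k + 3) {S : Finset (ℕ × ℕ)}
    (hS : S.card ≤ k) (h : NCov n (2 * k + 1) S) :
    Cov n (S.image (cst n)) {0, ((2 * k + 1 : ℕ) : ZMod n), -((2 * k + 1 : ℕ) : ZMod n)} k := by
  have h3 : 3 * ((2 * k + 1 : ℕ) : ZMod n) = 0 := by
    have : ((3 * (2 * k + 1) : ℕ) : ZMod n) = 0 := by
      rw [show 3 * (2 * k + 1) = n by omega, ZMod.natCast_self]
    push_cast at this ⊢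
    exact this
  have hne : ((2 * k + 1 : ℕ) : ZMod n) ≠ 0 := by
    intro he
    rw [ZMod.natCast_eq_zero_iff] at he
    have := Nat.le_of_dvd (by omega) he
    omega
  set c : ZMod n := ((2 * k + 1 : ℕ) : ZMod n) with hc
  have h2 : c + c = -c := by linear_combination h3
  have hcc : c ≠ -c := by
    intro he
    apply hne
    have : c + c = c := h2.trans he.symm
    simpa using this
  have hcard : ({0, c, -c} : Finset (ZMod n)).card = 3 := by
    rw [card_eq_three]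
    exact ⟨0, c, -c, hne.symm, (neg_ne_zero.2 hne).symm, hcc, rfl⟩
  refine ⟨card_image_le.trans hS, by rw [hcard]; omega, by simp, ?_, Or.inr hcard, ?_⟩
  · intro x hx y hy
    simp only [mem_insert, mem_singleton] at hx hy ⊢
    rcases hx with rfl | rfl | rfl <;> rcases hy with rfl | rfl | rfl
    · left; simp
    · right; right; simp
    · right; left; simp
    · right; left; simp
    · left; simp
    · right; right; rw [sub_neg_eq_add, h2]
    · right; right; simp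
    · right; left; linear_combination -h2
    · left; simp
  · intro d hd
    simp only [mem_insert, mem_singleton, not_or] at hd
    exact cov_point (by omega) h d hd.1 hd.2.1 hd.2.2

/-! ### The six families -/

/-- a family of pairs indexed by `r` with `r0 ≤ r < r1` -/
def fam (f : ℕ → ℕ × ℕ) (r0 r1 : ℕ) : Finset (ℕ × ℕ) := (Ico r0 r1).image f

lemma mem_fam {f : ℕ → ℕ × ℕ} {r0 r1 : ℕ} (r : ℕ) (h0 : r0 ≤ r) (h1 : r < r1) :
    f r ∈ fam f r0 r1 := mem_image_of_mem _ (by rw [mem_Ico]; exact ⟨h0, h1⟩)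

lemma card_fam (f : ℕ → ℕ × ℕ) (r0 r1 : ℕ) : (fam f r0 r1).card ≤ r1 - r0 := by
  have := card_image_le (s := Ico r0 r1) (f := f)
  rwa [Nat.card_Ico] at this

lemma card_union3 (A B C : Finset (ℕ × ℕ)) : (A ∪ B ∪ C).card ≤ A.card + B.card + C.card := by
  have h1 := card_union_le (A ∪ B) C
  have h2 := card_union_le A B
  omega

lemma in1 {A B C : Finset (ℕ × ℕ)} {p : ℕ × ℕ} (h : p ∈ A) : p ∈ A ∪ B ∪ C := by simp [h]
lemma in2 {A B C : Finset (ℕ × ℕ)} {p : ℕ × ℕ} (h : p ∈ B) : p ∈ A ∪ B ∪ C := by simp [h]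
lemma in3 {A B C : Finset (ℕ × ℕ)} {p : ℕ × ℕ} (h : p ∈ C) : p ∈ A ∪ B ∪ C := by simp [h]

/-- `n = 18 s + 3` -/
def S3 (s : ℕ) : Finset (ℕ × ℕ) :=
  fam (fun r => (3 * r + 1, 8 * s - r + 1)) 0 s ∪ fam (fun r => (3 * r + 2, 4 * s - r)) 0 s ∪
    fam (fun r => (3 * r + 3, 6 * s - 2 * r - 1)) 0 s

lemma S3_card (s : ℕ) : (S3 s).card ≤ 3 * s := by
  unfold S3
  refine (card_union3 _ _ _).trans ?_
  have h1 := card_fam (fun r => (3 * r + 1, 8 * s - r + 1)) 0 s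
  have h2 := card_fam (fun r => (3 * r + 2, 4 * s - r)) 0 s
  have h3 := card_fam (fun r => (3 * r + 3, 6 * s - 2 * r - 1)) 0 s
  omega

lemma S3_cov (s : ℕ) (hs : 1 ≤ s) : NCov (18 * s + 3) (6 * s + 1) (S3 s) := by
  intro x hx1 hx2 hx3
  have A : ∀ r, r < s → (x = 3 * r + 1 ∨ x = 8 * s - r + 1 ∨ x = 8 * s + 2 * r + 2 ∨
      x + (8 * s + 2 * r + 2) = 18 * s + 3) → ∃ p ∈ S3 s, x = p.1 ∨ x = p.2 ∨ x = p.1 + p.2 ∨
        x + (p.1 + p.2) = 18 * s + 3 := by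
    intro r hr h
    exact ⟨_, in1 (mem_fam r (Nat.zero_le r) hr), by dsimp only; omega⟩
  have B : ∀ r, r < s → (x = 3 * r + 2 ∨ x = 4 * s - r ∨ x = 4 * s + 2 * r + 2 ∨
      x + (4 * s + 2 * r + 2) = 18 * s + 3) → ∃ p ∈ S3 s, x = p.1 ∨ x = p.2 ∨ x = p.1 + p.2 ∨
        x + (p.1 + p.2) = 18 * s + 3 := by
    intro r hr h
    exact ⟨_, in2 (mem_fam r (Nat.zero_le r) hr), by dsimp only; omega⟩
  have C : ∀ r, r < s → (x = 3 * r + 3 ∨ x = 6 * s - 2 * r - 1 ∨ x = 6 * s + r + 2 ∨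
      x + (6 * s + r + 2) = 18 * s + 3) → ∃ p ∈ S3 s, x = p.1 ∨ x = p.2 ∨ x = p.1 + p.2 ∨
        x + (p.1 + p.2) = 18 * s + 3 := by
    intro r hr h
    exact ⟨_, in3 (mem_fam r (Nat.zero_le r) hr), by dsimp only; omega⟩
  by_cases h1 : x ≤ 3 * s
  · obtain ⟨r, hr⟩ : ∃ r, r = (x - 1) / 3 := ⟨_, rfl⟩
    have h3 : x % 3 = 0 ∨ x % 3 = 1 ∨ x % 3 = 2 := by omega
    rcases h3 with h3 | h3 | h3
    · exact C r (by omega) (by omega)
    · exact A r (by omega) (by omega)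
    · exact B r (by omega) (by omega)
  by_cases h2 : x ≤ 4 * s
  · exact B (4 * s - x) (by omega) (by omega)
  by_cases h3 : x ≤ 6 * s
  · rcases Nat.mod_two_eq_zero_or_one x with h4 | h4
    · exact B ((x - 4 * s - 2) / 2) (by omega) (by omega)
    · exact C ((6 * s - 1 - x) / 2) (by omega) (by omega)
  by_cases h4 : x ≤ 7 * s + 1
  · exact C (x - 6 * s - 2) (by omega) (by omega)
  by_cases h5 : x ≤ 8 * s + 1
  · exact A (8 * s + 1 - x) (by omega) (by omega)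
  rcases Nat.mod_two_eq_zero_or_one x with h6 | h6
  · exact A ((x - 8 * s - 2) / 2) (by omega) (by omega)
  · exact A ((10 * s + 1 - x) / 2) (by omega) (by omega)


lemma card_union4 (A B C D : Finset (ℕ × ℕ)) :
    (A ∪ B ∪ C ∪ D).card ≤ A.card + B.card + C.card + D.card := by
  have h1 := card_union_le (A ∪ B ∪ C) D
  have h2 := card_union3 A B C
  omega

lemma jn1 {A B C D : Finset (ℕ × ℕ)} {p : ℕ × ℕ} (h : p ∈ A) : p ∈ A ∪ B ∪ C ∪ D := by simp [h]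
lemma jn2 {A B C D : Finset (ℕ × ℕ)} {p : ℕ × ℕ} (h : p ∈ B) : p ∈ A ∪ B ∪ C ∪ D := by simp [h]
lemma jn3 {A B C D : Finset (ℕ × ℕ)} {p : ℕ × ℕ} (h : p ∈ C) : p ∈ A ∪ B ∪ C ∪ D := by simp [h]
lemma jn4 {A B C D : Finset (ℕ × ℕ)} {p : ℕ × ℕ} (h : p ∈ D) : p ∈ A ∪ B ∪ C ∪ D := by simp [h]

/-- `x` is hit by the pair `p` modulo `n` -/
def Hit (n x : ℕ) (p : ℕ × ℕ) : Prop := x = p.1 ∨ x = p.2 ∨ x = p.1 + p.2 ∨ x + (p.1 + p.2) = n

/-- `n = 18 s + 15` -/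
def S15 (s : ℕ) : Finset (ℕ × ℕ) :=
  fam (fun r => (3 * r + 1, 4 * s - r + 3)) 0 (s + 1) ∪
    fam (fun r => (3 * r + 2, 8 * s - r + 6)) 0 (s + 1) ∪
    fam (fun r => (3 * r + 3, 6 * s - 2 * r + 3)) 0 s

lemma S15_card (s : ℕ) : (S15 s).card ≤ 3 * s + 2 := by
  unfold S15
  refine (card_union3 _ _ _).trans ?_
  have h1 := card_fam (fun r => (3 * r + 1, 4 * s - r + 3)) 0 (s + 1)
  have h2 := card_fam (fun r => (3 * r + 2, 8 * s - r + 6)) 0 (s + 1)
  have h3 := card_fam (fun r => (3 * r + 3, 6 * s - 2 * r + 3)) 0 s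
  omega

lemma S15_cov (s : ℕ) (hs : 1 ≤ s) : NCov (18 * s + 15) (6 * s + 5) (S15 s) := by
  intro x hx1 hx2 hx3
  have A : ∀ r, r < s + 1 → Hit (18 * s + 15) x (3 * r + 1, 4 * s - r + 3) →
      ∃ p ∈ S15 s, Hit (18 * s + 15) x p := fun r hr h =>
    ⟨_, in1 (mem_fam r (Nat.zero_le r) hr), h⟩
  have B : ∀ r, r < s + 1 → Hit (18 * s + 15) x (3 * r + 2, 8 * s - r + 6) →
      ∃ p ∈ S15 s, Hit (18 * s + 15) x p := fun r hr h =>
    ⟨_, in2 (mem_fam r (Nat.zero_le r) hr), h⟩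
  have C : ∀ r, r < s → Hit (18 * s + 15) x (3 * r + 3, 6 * s - 2 * r + 3) →
      ∃ p ∈ S15 s, Hit (18 * s + 15) x p := fun r hr h =>
    ⟨_, in3 (mem_fam r (Nat.zero_le r) hr), h⟩
  simp only [Hit] at A B C
  by_cases h1 : x ≤ 3 * s + 2
  · obtain ⟨r, hr⟩ : ∃ r, r = (x - 1) / 3 := ⟨_, rfl⟩
    have h3 : x % 3 = 0 ∨ x % 3 = 1 ∨ x % 3 = 2 := by omega
    rcases h3 with h3 | h3 | h3
    · exact C r (by omega) (by omega)
    · exact A r (by omega) (by omega)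
    · exact B r (by omega) (by omega)
  by_cases h2 : x ≤ 4 * s + 3
  · exact A (4 * s + 3 - x) (by omega) (by omega)
  by_cases h3 : x ≤ 6 * s + 4
  · rcases Nat.mod_two_eq_zero_or_one x with h4 | h4
    · exact A ((x - 4 * s - 4) / 2) (by omega) (by omega)
    · exact C ((6 * s + 3 - x) / 2) (by omega) (by omega)
  by_cases h4 : x ≤ 7 * s + 5
  · exact C (x - 6 * s - 6) (by omega) (by omega)
  by_cases h5 : x ≤ 8 * s + 6
  · exact B (8 * s + 6 - x) (by omega) (by omega)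
  rcases Nat.mod_two_eq_zero_or_one x with h6 | h6
  · exact B ((x - 8 * s - 8) / 2) (by omega) (by omega)
  · exact B ((10 * s + 7 - x) / 2) (by omega) (by omega)

/-- `n = 18 s + 1` -/
def S1 (s : ℕ) : Finset (ℕ × ℕ) :=
  fam (fun r => (3 * r + 1, 4 * s - r + 1)) 0 s ∪ fam (fun r => (3 * r + 2, 8 * s - r)) 0 s ∪
    fam (fun r => (3 * r + 3, 6 * s - 2 * r - 1)) 0 (s - 1) ∪ {(3 * s, 3 * s + 1)}

lemma S1_card (s : ℕ) (hs : 1 ≤ s) : (S1 s).card ≤ 3 * s := by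
  unfold S1
  refine (card_union4 _ _ _ _).trans ?_
  have h1 := card_fam (fun r => (3 * r + 1, 4 * s - r + 1)) 0 s
  have h2 := card_fam (fun r => (3 * r + 2, 8 * s - r)) 0 s
  have h3 := card_fam (fun r => (3 * r + 3, 6 * s - 2 * r - 1)) 0 (s - 1)
  rw [card_singleton]
  omega

lemma S1_cov (s : ℕ) (hs : 2 ≤ s) : NCov (18 * s + 1) 0 (S1 s) := by
  intro x hx1 hx2 hx3
  have A : ∀ r, r < s → Hit (18 * s + 1) x (3 * r + 1, 4 * s - r + 1) →
      ∃ p ∈ S1 s, Hit (18 * s + 1) x p := fun r hr h =>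
    ⟨_, jn1 (mem_fam r (Nat.zero_le r) hr), h⟩
  have B : ∀ r, r < s → Hit (18 * s + 1) x (3 * r + 2, 8 * s - r) →
      ∃ p ∈ S1 s, Hit (18 * s + 1) x p := fun r hr h =>
    ⟨_, jn2 (mem_fam r (Nat.zero_le r) hr), h⟩
  have C : ∀ r, r < s - 1 → Hit (18 * s + 1) x (3 * r + 3, 6 * s - 2 * r - 1) →
      ∃ p ∈ S1 s, Hit (18 * s + 1) x p := fun r hr h =>
    ⟨_, jn3 (mem_fam r (Nat.zero_le r) hr), h⟩
  have D : Hit (18 * s + 1) x (3 * s, 3 * s + 1) →
      ∃ p ∈ S1 s, Hit (18 * s + 1) x p := fun h =>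
    ⟨_, jn4 (by simp), h⟩
  simp only [Hit] at A B C D
  by_cases h0 : x = 3 * s ∨ x = 3 * s + 1 ∨ x = 6 * s + 1
  · exact D (by omega)
  by_cases h1 : x ≤ 3 * s
  · obtain ⟨r, hr⟩ : ∃ r, r = (x - 1) / 3 := ⟨_, rfl⟩
    have h3 : x % 3 = 0 ∨ x % 3 = 1 ∨ x % 3 = 2 := by omega
    rcases h3 with h3 | h3 | h3
    · exact C r (by omega) (by omega)
    · exact A r (by omega) (by omega)
    · exact B r (by omega) (by omega)
  by_cases h2 : x ≤ 4 * s + 1
  · exact A (4 * s + 1 - x) (by omega) (by omega)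
  by_cases h3 : x ≤ 6 * s
  · rcases Nat.mod_two_eq_zero_or_one x with h4 | h4
    · exact A ((x - 4 * s - 2) / 2) (by omega) (by omega)
    · exact C ((6 * s - 1 - x) / 2) (by omega) (by omega)
  by_cases h4 : x ≤ 7 * s
  · exact C (x - 6 * s - 2) (by omega) (by omega)
  by_cases h5 : x ≤ 8 * s
  · exact B (8 * s - x) (by omega) (by omega)
  rcases Nat.mod_two_eq_zero_or_one x with h6 | h6
  · exact B ((x - 8 * s - 2) / 2) (by omega) (by omega)
  · exact B ((10 * s - 1 - x) / 2) (by omega) (by omega)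

/-- `n = 18 s + 7` -/
def S7 (s : ℕ) : Finset (ℕ × ℕ) :=
  fam (fun r => (3 * r + 1, 8 * s - r + 3)) 0 s ∪ fam (fun r => (3 * r + 2, 6 * s - 2 * r + 1)) 0 s ∪
    fam (fun r => (3 * r + 3, 4 * s - r + 1)) 0 s ∪ {(3 * s + 1, 4 * s + 2)}

lemma S7_card (s : ℕ) : (S7 s).card ≤ 3 * s + 1 := by
  unfold S7
  refine (card_union4 _ _ _ _).trans ?_
  have h1 := card_fam (fun r => (3 * r + 1, 8 * s - r + 3)) 0 s
  have h2 := card_fam (fun r => (3 * r + 2, 6 * s - 2 * r + 1)) 0 s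
  have h3 := card_fam (fun r => (3 * r + 3, 4 * s - r + 1)) 0 s
  rw [card_singleton]
  omega

lemma S7_cov (s : ℕ) (hs : 1 ≤ s) : NCov (18 * s + 7) 0 (S7 s) := by
  intro x hx1 hx2 hx3
  have A : ∀ r, r < s → Hit (18 * s + 7) x (3 * r + 1, 8 * s - r + 3) →
      ∃ p ∈ S7 s, Hit (18 * s + 7) x p := fun r hr h =>
    ⟨_, jn1 (mem_fam r (Nat.zero_le r) hr), h⟩
  have B : ∀ r, r < s → Hit (18 * s + 7) x (3 * r + 2, 6 * s - 2 * r + 1) →
      ∃ p ∈ S7 s, Hit (18 * s + 7) x p := fun r hr h =>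
    ⟨_, jn2 (mem_fam r (Nat.zero_le r) hr), h⟩
  have C : ∀ r, r < s → Hit (18 * s + 7) x (3 * r + 3, 4 * s - r + 1) →
      ∃ p ∈ S7 s, Hit (18 * s + 7) x p := fun r hr h =>
    ⟨_, jn3 (mem_fam r (Nat.zero_le r) hr), h⟩
  have D : Hit (18 * s + 7) x (3 * s + 1, 4 * s + 2) →
      ∃ p ∈ S7 s, Hit (18 * s + 7) x p := fun h =>
    ⟨_, jn4 (by simp), h⟩
  simp only [Hit] at A B C D
  by_cases h0 : x = 3 * s + 1 ∨ x = 4 * s + 2 ∨ x = 7 * s + 3
  · exact D (by omega)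
  by_cases h1 : x ≤ 3 * s
  · obtain ⟨r, hr⟩ : ∃ r, r = (x - 1) / 3 := ⟨_, rfl⟩
    have h3 : x % 3 = 0 ∨ x % 3 = 1 ∨ x % 3 = 2 := by omega
    rcases h3 with h3 | h3 | h3
    · exact C r (by omega) (by omega)
    · exact A r (by omega) (by omega)
    · exact B r (by omega) (by omega)
  by_cases h2 : x ≤ 4 * s + 1
  · exact C (4 * s + 1 - x) (by omega) (by omega)
  by_cases h3 : x ≤ 6 * s + 2
  · rcases Nat.mod_two_eq_zero_or_one x with h4 | h4
    · exact C ((x - 4 * s - 4) / 2) (by omega) (by omega)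
    · exact B ((6 * s + 1 - x) / 2) (by omega) (by omega)
  by_cases h4 : x ≤ 7 * s + 2
  · exact B (x - 6 * s - 3) (by omega) (by omega)
  by_cases h5 : x ≤ 8 * s + 3
  · exact A (8 * s + 3 - x) (by omega) (by omega)
  rcases Nat.mod_two_eq_zero_or_one x with h6 | h6
  · exact A ((x - 8 * s - 4) / 2) (by omega) (by omega)
  · exact A ((10 * s + 3 - x) / 2) (by omega) (by omega)

/-- `n = 18 s + 13` -/
def S13 (s : ℕ) : Finset (ℕ × ℕ) :=
  fam (fun r => (3 * r + 2, 6 * s - 2 * r + 3)) 0 s ∪ fam (fun r => (3 * r + 3, 8 * s - r + 5)) 0 s ∪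
    fam (fun r => (3 * r + 1, 4 * s - r + 3)) 0 (s + 1) ∪ {(3 * s + 2, 7 * s + 5)}

lemma S13_card (s : ℕ) : (S13 s).card ≤ 3 * s + 2 := by
  unfold S13
  refine (card_union4 _ _ _ _).trans ?_
  have h1 := card_fam (fun r => (3 * r + 2, 6 * s - 2 * r + 3)) 0 s
  have h2 := card_fam (fun r => (3 * r + 3, 8 * s - r + 5)) 0 s
  have h3 := card_fam (fun r => (3 * r + 1, 4 * s - r + 3)) 0 (s + 1)
  rw [card_singleton]
  omega

lemma S13_cov (s : ℕ) (hs : 1 ≤ s) : NCov (18 * s + 13) 0 (S13 s) := by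
  intro x hx1 hx2 hx3
  have A : ∀ r, r < s → Hit (18 * s + 13) x (3 * r + 2, 6 * s - 2 * r + 3) →
      ∃ p ∈ S13 s, Hit (18 * s + 13) x p := fun r hr h =>
    ⟨_, jn1 (mem_fam r (Nat.zero_le r) hr), h⟩
  have B : ∀ r, r < s → Hit (18 * s + 13) x (3 * r + 3, 8 * s - r + 5) →
      ∃ p ∈ S13 s, Hit (18 * s + 13) x p := fun r hr h =>
    ⟨_, jn2 (mem_fam r (Nat.zero_le r) hr), h⟩
  have C : ∀ r, r < s + 1 → Hit (18 * s + 13) x (3 * r + 1, 4 * s - r + 3) →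
      ∃ p ∈ S13 s, Hit (18 * s + 13) x p := fun r hr h =>
    ⟨_, jn3 (mem_fam r (Nat.zero_le r) hr), h⟩
  have D : Hit (18 * s + 13) x (3 * s + 2, 7 * s + 5) →
      ∃ p ∈ S13 s, Hit (18 * s + 13) x p := fun h =>
    ⟨_, jn4 (by simp), h⟩
  simp only [Hit] at A B C D
  by_cases h0 : x = 3 * s + 2 ∨ x = 7 * s + 5 ∨ x = 8 * s + 6
  · exact D (by omega)
  by_cases h1 : x ≤ 3 * s + 1
  · obtain ⟨r, hr⟩ : ∃ r, r = (x - 1) / 3 := ⟨_, rfl⟩
    have h3 : x % 3 = 0 ∨ x % 3 = 1 ∨ x % 3 = 2 := by omega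
    rcases h3 with h3 | h3 | h3
    · exact B r (by omega) (by omega)
    · exact C r (by omega) (by omega)
    · exact A r (by omega) (by omega)
  by_cases h2 : x ≤ 4 * s + 3
  · exact C (4 * s + 3 - x) (by omega) (by omega)
  by_cases h3 : x ≤ 6 * s + 4
  · rcases Nat.mod_two_eq_zero_or_one x with h4 | h4
    · exact C ((x - 4 * s - 4) / 2) (by omega) (by omega)
    · exact A ((6 * s + 3 - x) / 2) (by omega) (by omega)
  by_cases h4 : x ≤ 7 * s + 4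
  · exact A (x - 6 * s - 5) (by omega) (by omega)
  by_cases h5 : x ≤ 8 * s + 5
  · exact B (8 * s + 5 - x) (by omega) (by omega)
  rcases Nat.mod_two_eq_zero_or_one x with h6 | h6
  · exact B ((x - 8 * s - 8) / 2) (by omega) (by omega)
  · exact B ((10 * s + 5 - x) / 2) (by omega) (by omega)

/-- `n = 18 s + 9` -/
def S9 (s : ℕ) : Finset (ℕ × ℕ) :=
  fam (fun r => (3 * r + 1, 4 * s - r + 3)) 0 (s + 1) ∪
    fam (fun r => (3 * r + 2, 8 * s - r + 2)) 2 (s - 1) ∪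
    fam (fun r => (3 * r + 3, 6 * s - 2 * r + 1)) 1 (s - 1) ∪
    {(2, 8 * s + 3), (3, 8 * s + 1), (5, 8 * s + 2), (3 * s - 1, 3 * s + 2), (3 * s, 7 * s + 3)}

lemma S9_card (s : ℕ) (hs : 4 ≤ s) : (S9 s).card ≤ 3 * s + 1 := by
  unfold S9
  refine (card_union4 _ _ _ _).trans ?_
  have h1 := card_fam (fun r => (3 * r + 1, 4 * s - r + 3)) 0 (s + 1)
  have h2 := card_fam (fun r => (3 * r + 2, 8 * s - r + 2)) 2 (s - 1)
  have h3 := card_fam (fun r => (3 * r + 3, 6 * s - 2 * r + 1)) 1 (s - 1)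
  have h4 := card_le_five (a := ((2, 8 * s + 3) : ℕ × ℕ)) (b := (3, 8 * s + 1))
    (c := (5, 8 * s + 2)) (d := (3 * s - 1, 3 * s + 2)) (e := (3 * s, 7 * s + 3))
  omega

lemma S9_cov (s : ℕ) (hs : 4 ≤ s) : NCov (18 * s + 9) (6 * s + 3) (S9 s) := by
  intro x hx1 hx2 hx3
  have A : ∀ r, r < s + 1 → Hit (18 * s + 9) x (3 * r + 1, 4 * s - r + 3) →
      ∃ p ∈ S9 s, Hit (18 * s + 9) x p := fun r hr h =>
    ⟨_, jn1 (mem_fam r (Nat.zero_le r) hr), h⟩
  have B : ∀ r, 2 ≤ r → r < s - 1 → Hit (18 * s + 9) x (3 * r + 2, 8 * s - r + 2) →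
      ∃ p ∈ S9 s, Hit (18 * s + 9) x p := fun r h2 hr h =>
    ⟨_, jn2 (mem_fam r h2 hr), h⟩
  have C : ∀ r, 1 ≤ r → r < s - 1 → Hit (18 * s + 9) x (3 * r + 3, 6 * s - 2 * r + 1) →
      ∃ p ∈ S9 s, Hit (18 * s + 9) x p := fun r h1 hr h =>
    ⟨_, jn3 (mem_fam r h1 hr), h⟩
  have D1 : Hit (18 * s + 9) x (2, 8 * s + 3) → ∃ p ∈ S9 s, Hit (18 * s + 9) x p := fun h =>
    ⟨_, jn4 (by simp), h⟩
  have D2 : Hit (18 * s + 9) x (3, 8 * s + 1) → ∃ p ∈ S9 s, Hit (18 * s + 9) x p := fun h =>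
    ⟨_, jn4 (by simp), h⟩
  have D3 : Hit (18 * s + 9) x (5, 8 * s + 2) → ∃ p ∈ S9 s, Hit (18 * s + 9) x p := fun h =>
    ⟨_, jn4 (by simp), h⟩
  have D4 : Hit (18 * s + 9) x (3 * s - 1, 3 * s + 2) → ∃ p ∈ S9 s, Hit (18 * s + 9) x p := fun h =>
    ⟨_, jn4 (by simp), h⟩
  have D5 : Hit (18 * s + 9) x (3 * s, 7 * s + 3) → ∃ p ∈ S9 s, Hit (18 * s + 9) x p := fun h =>
    ⟨_, jn4 (by simp), h⟩
  simp only [Hit] at A B C D1 D2 D3 D4 D5
  by_cases h01 : x = 2 ∨ x = 8 * s + 3 ∨ x = 8 * s + 5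
  · exact D1 (by omega)
  by_cases h02 : x = 3 ∨ x = 8 * s + 1 ∨ x = 8 * s + 4
  · exact D2 (by omega)
  by_cases h03 : x = 5 ∨ x = 8 * s + 2 ∨ x = 8 * s + 7
  · exact D3 (by omega)
  by_cases h04 : x = 3 * s - 1 ∨ x = 3 * s + 2 ∨ x = 6 * s + 1
  · exact D4 (by omega)
  by_cases h05 : x = 3 * s ∨ x = 7 * s + 3 ∨ x = 8 * s + 6
  · exact D5 (by omega)
  clear D1 D2 D3 D4 D5
  by_cases h1 : x ≤ 3 * s + 1
  · obtain ⟨r, hr⟩ : ∃ r, r = (x - 1) / 3 := ⟨_, rfl⟩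
    have h3 : x % 3 = 0 ∨ x % 3 = 1 ∨ x % 3 = 2 := by omega
    rcases h3 with h3 | h3 | h3
    · exact C r (by omega) (by omega) (by omega)
    · exact A r (by omega) (by omega)
    · exact B r (by omega) (by omega) (by omega)
  by_cases h2 : x ≤ 4 * s + 3
  · exact A (4 * s + 3 - x) (by omega) (by omega)
  by_cases h3 : x ≤ 6 * s + 4
  · rcases Nat.mod_two_eq_zero_or_one x with h4 | h4
    · exact A ((x - 4 * s - 4) / 2) (by omega) (by omega)
    · exact C ((6 * s + 1 - x) / 2) (by omega) (by omega) (by omega)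
  by_cases h4 : x ≤ 7 * s + 2
  · exact C (x - 6 * s - 4) (by omega) (by omega) (by omega)
  by_cases h5 : x ≤ 8 * s
  · exact B (8 * s + 2 - x) (by omega) (by omega) (by omega)
  rcases Nat.mod_two_eq_zero_or_one x with h6 | h6
  · exact B ((x - 8 * s - 4) / 2) (by omega) (by omega) (by omega)
  · exact B ((10 * s + 5 - x) / 2) (by omega) (by omega) (by omega)

/-- For all `n ≡ 1, 3 mod 6`, `n ≥ 81`, there are covering data with `k = n / 6`. -/
theorem exists_cov (n : ℕ) [NeZero n] (hn : 81 ≤ n) (h : n % 6 = 1 ∨ n % 6 = 3) :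
    ∃ (T : Finset (ZMod n × ZMod n)) (H : Finset (ZMod n)), Cov n T H (n / 6) := by
  obtain ⟨s, hs⟩ : ∃ s, s = n / 18 := ⟨_, rfl⟩
  have h18 : n % 18 = 1 ∨ n % 18 = 7 ∨ n % 18 = 13 ∨ n % 18 = 3 ∨ n % 18 = 9 ∨ n % 18 = 15 := by
    omega
  rcases h18 with h1 | h1 | h1 | h1 | h1 | h1
  · have e : n = 18 * s + 1 := by omega
    have hk : n / 6 = 3 * s := by omega
    refine ⟨_, _, cov_one (k := n / 6) (by omega) (S := S1 s) ?_ ?_⟩
    · rw [hk]; exact S1_card s (by omega)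
    · have := S1_cov s (by omega)
      rwa [← e] at this
  · have e : n = 18 * s + 7 := by omega
    have hk : n / 6 = 3 * s + 1 := by omega
    refine ⟨_, _, cov_one (k := n / 6) (by omega) (S := S7 s) ?_ ?_⟩
    · rw [hk]; exact S7_card s
    · have := S7_cov s (by omega)
      rwa [← e] at this
  · have e : n = 18 * s + 13 := by omega
    have hk : n / 6 = 3 * s + 2 := by omega
    refine ⟨_, _, cov_one (k := n / 6) (by omega) (S := S13 s) ?_ ?_⟩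
    · rw [hk]; exact S13_card s
    · have := S13_cov s (by omega)
      rwa [← e] at this
  · have e : n = 18 * s + 3 := by omega
    have hk : n / 6 = 3 * s := by omega
    refine ⟨_, _, cov_three (k := n / 6) (by omega) (S := S3 s) ?_ ?_⟩
    · rw [hk]; exact S3_card s
    · have := S3_cov s (by omega)
      rw [← e] at this
      rwa [show 2 * (n / 6) + 1 = 6 * s + 1 by omega]
  · have e : n = 18 * s + 9 := by omega
    have hk : n / 6 = 3 * s + 1 := by omega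
    refine ⟨_, _, cov_three (k := n / 6) (by omega) (S := S9 s) ?_ ?_⟩
    · rw [hk]; exact S9_card s (by omega)
    · have := S9_cov s (by omega)
      rw [← e] at this
      rwa [show 2 * (n / 6) + 1 = 6 * s + 3 by omega]
  · have e : n = 18 * s + 15 := by omega
    have hk : n / 6 = 3 * s + 2 := by omega
    refine ⟨_, _, cov_three (k := n / 6) (by omega) (S := S15 s) ?_ ?_⟩
    · rw [hk]; exact S15_card s
    · have := S15_cov s (by omega)
      rw [← e] at this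
      rwa [show 2 * (n / 6) + 1 = 6 * s + 5 by omega]

/-- growth of powers of two -/
lemma pow_big (M n : ℕ) (hn : 6 * (24 * M + 2) ≤ n) : n * M ≤ 2 ^ (n / 6) := by
  obtain ⟨j, hj⟩ : ∃ j, j = n / 6 / 2 := ⟨_, rfl⟩
  have h1 : j + 1 ≤ 2 ^ j := Nat.lt_two_pow_self
  have h2 : 2 ^ (2 * j) ≤ 2 ^ (n / 6) := Nat.pow_le_pow_right (by norm_num) (by omega)
  have h3 : 2 ^ (2 * j) = 2 ^ j * 2 ^ j := by rw [two_mul, pow_add]
  have h4 : n ≤ 12 * (j + 1) := by omega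
  have h5 : 12 * M ≤ j := by omega
  calc n * M ≤ 12 * (j + 1) * M := Nat.mul_le_mul_right M h4
    _ = (j + 1) * (12 * M) := by ring
    _ ≤ (j + 1) * (j + 1) := Nat.mul_le_mul_left _ (by omega)
    _ ≤ 2 ^ j * 2 ^ j := Nat.mul_le_mul h1 h1
    _ ≤ 2 ^ (n / 6) := by rw [← h3]; exact h2

/-- the number of isomorphism classes tends to infinity -/
theorem main (M n : ℕ) (hn : 6 * (24 * M + 2) + 81 ≤ n) (h : n % 6 = 1 ∨ n % 6 = 3) :
    ∃ B : Fin M → Finset (Finset (ZMod n)), (∀ i, IsCSTS (B i)) ∧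
      ∀ i j, i ≠ j → ¬ Iso (B i) (B j) := by
  have : NeZero n := ⟨by omega⟩
  obtain ⟨T, H, hT⟩ := exists_cov n (by omega) h
  exact hT.many M (pow_big M n (by omega))

end Pool.Agent.U348.CSTS
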